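import Pool.Agent.Y740.Z.Stm

/-! Project ZF (helper740): descent of integral invariant algebraic functions (job ZF-DESC). -/

set_option autoImplicit false

namespace Pool.Agent.Y51.ZF

open Polynomial Pool.Agent.Y740.Z

theorem t_DESC : Pool.Agent.Y740.Z.S_DESC := by
  intro k _ _ _ θ hθ hint
  have hchar : CharZero (RatFunc k) := charZero_of_injective_algebraMap
    (algebraMap k (RatFunc k)).injective
  have hgal : IsGalois (RatFunc k) (Alg k) := inferInstance
  have h1 : θ ∈ (⊥ : IntermediateField (RatFunc k) (Alg k)) :=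
    (InfiniteGalois.mem_bot_iff_fixed θ).2 hθ
  obtain ⟨r, rfl⟩ := IntermediateField.mem_bot.1 h1
  have h2 : IsIntegral k[X] r :=
    (isIntegral_algebraMap_iff (algebraMap (RatFunc k) (Alg k)).injective).1 hint
  obtain ⟨P, rfl⟩ := IsIntegrallyClosed.isIntegral_iff.1 h2
  exact ⟨P, (IsScalarTower.algebraMap_apply k[X] (RatFunc k) (Alg k) P)⟩

end Pool.Agent.Y51.ZF
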