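import Pool.Agent.Y740.Z.Stm

/-! Project ZF (helper740): generic points of curves as algebraic functions (job ZF-EMB). -/

set_option autoImplicit false

namespace Pool.Agent.Y51.ZF

open Polynomial Pool.Agent.Y740.Z

theorem t_EMB : Pool.Agent.Y740.Z.S_EMB := by
  intro k _ _ _ ι _ A hA L _ _ s hs x hx
  have hinj : Function.Injective (Polynomial.aeval s : k[X] →ₐ[k] L).toRingHom :=
    transcendental_iff_injective.1 hs
  let φ : RatFunc k →+* L := IsFractionRing.lift hinj
  have hφ : ∀ P : k[X], φ (algebraMap k[X] (RatFunc k) P) = Polynomial.aeval s P := fun P =>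
    IsFractionRing.lift_algebraMap hinj P
  let _ : Algebra (RatFunc k) L := φ.toAlgebra
  have halg : ∀ P : k[X], algebraMap (RatFunc k) L (algebraMap k[X] (RatFunc k) P) =
      Polynomial.aeval s P := hφ
  let B : ι → (RatFunc k)[X] := fun l => (A l).map (algebraMap k[X] (RatFunc k))
  have hB0 : ∀ l, B l ≠ 0 := by
    intro l h0
    apply hA l
    have h1 := congrArg (fun P => Polynomial.coeff P 0) h0
    simp only [B, coeff_map, coeff_zero] at h1
    exact (map_eq_zero_iff _ (IsFractionRing.injective k[X] (RatFunc k))).1 h1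
  have hroot : ∀ l, aeval (x l) (B l) = 0 := by
    intro l
    have h1 := hx l
    unfold ev at h1
    rw [aeval_def, eval₂_map]
    have h2 : (algebraMap (RatFunc k) L).comp (algebraMap k[X] (RatFunc k)) =
        (Polynomial.aeval s : k[X] →ₐ[k] L).toRingHom := RingHom.ext fun P => halg P
    rw [h2]
    exact h1
  have hint : ∀ y ∈ Set.range x, IsIntegral (RatFunc k) y := by
    rintro y ⟨l, rfl⟩
    exact (isAlgebraic_iff_isIntegral).1 ⟨B l, hB0 l, hroot l⟩
  have hE : Algebra.IsAlgebraic (RatFunc k) (IntermediateField.adjoin (RatFunc k) (Set.range x)) :=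
    IntermediateField.isAlgebraic_adjoin hint
  let j : IntermediateField.adjoin (RatFunc k) (Set.range x) →ₐ[RatFunc k] Alg k :=
    IsAlgClosed.lift
  let i : IntermediateField.adjoin (RatFunc k) (Set.range x) →ₐ[RatFunc k] L :=
    IntermediateField.val _
  have hi : Function.Injective i := i.toRingHom.injective
  have hmem : ∀ l, x l ∈ IntermediateField.adjoin (RatFunc k) (Set.range x) := fun l =>
    IntermediateField.subset_adjoin _ _ ⟨l, rfl⟩
  refine ⟨fun l => j ⟨x l, hmem l⟩, fun l => ?_, fun w => ?_⟩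
  · unfold IsRt
    have h1 : aeval (⟨x l, hmem l⟩ : IntermediateField.adjoin (RatFunc k) (Set.range x)) (B l) = 0 := by
      apply hi
      rw [← aeval_algHom_apply i, map_zero]
      exact hroot l
    have h2 : aeval (j ⟨x l, hmem l⟩) (B l) = 0 := by
      rw [aeval_algHom_apply, h1, map_zero]
    rw [aeval_def, eval₂_map, ← IsScalarTower.algebraMap_eq] at h2
    exact h2
  · have h1 : ∏ l, (j ⟨x l, hmem l⟩) ^ w l =
        j (∏ l, (⟨x l, hmem l⟩ : IntermediateField.adjoin (RatFunc k) (Set.range x)) ^ w l) := by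
      rw [map_prod]
      exact Finset.prod_congr rfl fun l _ => (map_zpow₀ j _ _).symm
    have h2 : (∏ l, x l ^ w l) =
        i (∏ l, (⟨x l, hmem l⟩ : IntermediateField.adjoin (RatFunc k) (Set.range x)) ^ w l) := by
      rw [map_prod]
      exact Finset.prod_congr rfl fun l _ => (map_zpow₀ i ⟨x l, hmem l⟩ (w l)).symm
    rw [h1, h2, map_eq_one_iff j j.toRingHom.injective, map_eq_one_iff i hi]

end Pool.Agent.Y51.ZF
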