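import Pool.Agent.Y740.Z.Stm

/-! Project ZF (helper740): places of a field extension (job ZF-PL). -/

set_option autoImplicit false

namespace Pool.Agent.Y51.ZF

open Polynomial

theorem t_PL : Pool.Agent.Y740.Z.S_PL := by
  intro k W _ _ _ t ht
  have hprime : (Ideal.span {(X : k[X])}).IsPrime :=
    (Ideal.span_singleton_prime X_ne_zero).2 Polynomial.prime_X
  let R := Localization.AtPrime (Ideal.span {(X : k[X])})
  have hunit : ∀ y : (Ideal.span {(X : k[X])}).primeCompl,
      IsUnit ((Polynomial.aeval t : k[X] →ₐ[k] W).toRingHom y) := by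
    intro y
    rw [isUnit_iff_ne_zero]
    intro h0
    have h1 : (y : k[X]) = 0 := by
      by_contra hne
      exact ht ⟨y, hne, h0⟩
    exact y.2 (by rw [h1]; exact Ideal.zero_mem _)
  let f : R →+* W := IsLocalization.lift hunit
  have hf : ∀ P : k[X], f (algebraMap k[X] R P) = Polynomial.aeval t P := fun P =>
    IsLocalization.lift_eq hunit P
  obtain ⟨A, h, hloc⟩ := IsLocalRing.exists_factor_valuationRing f
  refine ⟨A, fun c => ?_, ?_⟩
  · have h1 := h (algebraMap k[X] R (C c))
    rw [hf, aeval_C] at h1
    exact h1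
  · have h1 := h (algebraMap k[X] R X)
    rw [hf, aeval_X] at h1
    have hnu : ¬ IsUnit (algebraMap k[X] R X) := by
      rw [IsLocalization.AtPrime.isUnit_to_map_iff R (Ideal.span {(X : k[X])})]
      intro hcon
      exact hcon (Ideal.subset_span rfl)
    have h2 : A.valuation t ≠ 1 := by
      intro hv
      apply hnu
      apply hloc.map_nonunit
      have h3 : (f.codRestrict A.toSubring h) (algebraMap k[X] R X) = ⟨t, h1⟩ := by
        apply Subtype.ext
        change f (algebraMap k[X] R X) = t
        rw [hf, aeval_X]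
      rw [h3]
      exact (A.valuation_eq_one_iff ⟨t, h1⟩).2 hv
    exact lt_of_le_of_ne ((A.valuation_le_one_iff t).2 h1) h2

end Pool.Agent.Y51.ZF
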