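import Pool.Agent.Y740.Z.Stm

/-! Project ZF (helper740): `M ≤ 2 φ(M)²` (job ZF-TOT). -/

set_option autoImplicit false

namespace Pool.Agent.Y51.ZF

open Nat

lemma odd_le (m : ℕ) : Odd m → m ≤ Nat.totient m ^ 2 := by
  induction m using Nat.recOnPosPrimePosCoprime with
  | prime_pow p n hp hn =>
    intro ho
    have hpo : p ≠ 2 := by
      rintro rfl
      have h1 : ¬ Odd (2 ^ n) := by
        rw [Nat.not_odd_iff_even]
        exact (Nat.even_pow.2 ⟨even_two, hn.ne'⟩)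
      exact h1 ho
    have hp3 : 3 ≤ p := by
      have := hp.two_le
      omega
    rw [Nat.totient_prime_pow hp hn]
    obtain ⟨q, rfl⟩ : ∃ q, p = q + 3 := ⟨p - 3, by omega⟩
    obtain ⟨k, rfl⟩ : ∃ k, n = k + 1 := ⟨n - 1, by omega⟩
    have e1 : q + 3 - 1 = q + 2 := by omega
    have e2 : k + 1 - 1 = k := by omega
    rw [e1, e2, mul_pow, pow_succ]
    have h1 : (q + 3) ^ k ≤ ((q + 3) ^ k) ^ 2 := by
      nlinarith [Nat.one_le_pow k (q + 3) (by omega)]
    have h2 : q + 3 ≤ (q + 2) ^ 2 := by nlinarith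
    exact Nat.mul_le_mul h1 h2
  | zero => intro h; exact absurd h (by decide)
  | one => intro _; simp
  | coprime a b ha hb hab iha ihb =>
    intro ho
    obtain ⟨h1, h2⟩ := Nat.odd_mul.1 ho
    rw [Nat.totient_mul hab, mul_pow]
    exact Nat.mul_le_mul (iha h1) (ihb h2)

theorem t_TOT : Pool.Agent.Y740.Z.S_TOT := by
  intro M
  rcases eq_or_ne M 0 with rfl | hM
  · exact Nat.zero_le _
  obtain ⟨k, m, hm, rfl⟩ := Nat.exists_eq_two_pow_mul_odd hM
  have h1 := odd_le m hm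
  rcases Nat.eq_zero_or_pos k with rfl | hk
  · rw [pow_zero, one_mul]
    omega
  · have hc : Nat.Coprime (2 ^ k) m := Nat.Coprime.pow_left k (Nat.coprime_two_left.2 hm)
    rw [Nat.totient_mul hc, Nat.totient_prime_pow Nat.prime_two hk]
    obtain ⟨j, rfl⟩ : ∃ j, k = j + 1 := ⟨k - 1, by omega⟩
    have e : j + 1 - 1 = j := by omega
    rw [e, pow_succ]
    have h2 : 2 ^ j ≤ (2 ^ j) ^ 2 := by
      nlinarith [Nat.one_le_pow j 2 (by omega)]
    calc 2 ^ j * 2 * m = 2 * (2 ^ j * m) := by ring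
      _ ≤ 2 * ((2 ^ j) ^ 2 * Nat.totient m ^ 2) := Nat.mul_le_mul_left _ (Nat.mul_le_mul h2 h1)
      _ = 2 * (2 ^ j * (2 - 1) * Nat.totient m) ^ 2 := by ring

end Pool.Agent.Y51.ZF
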